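import Pool.Agent.R575.LL.Defs

namespace Pool.Agent.R575.LL

open Pool.Agent.R575.WC

theorem loc_closed {S : Set Can} (h : ∀ L, L ∉ S → ∃ N, ∀ L' : Can, (∀ t < N, L' t = L t) → L' ∉ S) :
    IsClosed S := by
  rw [← isOpen_compl_iff, isOpen_iff_mem_nhds]
  intro L hL
  obtain ⟨N, hN⟩ := h L hL
  have h1 : (⋂ t ∈ Finset.range N, {L' : Can | L' t = L t}) ∈ nhds L := by
    rw [Filter.biInter_finset_mem]
    intro t _
    have h2 : Continuous (fun L' : Can => L' t) := continuous_apply t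
    exact (h2.isOpen_preimage (fun a : Bool => a = L t) (isOpen_discrete _)).mem_nhds rfl
  refine Filter.mem_of_superset h1 ?_
  intro L' hL'
  apply hN L'
  intro t ht
  simp only [Set.mem_iInter] at hL'
  exact hL' t (Finset.mem_range.2 ht)

theorem cpt (Z : ℕ → Set Can) (hcl : ∀ n, IsClosed (Z n)) (hdec : ∀ n, Z (n + 1) ⊆ Z n)
    (hne : ∀ n, (Z n).Nonempty) : ∃ L, ∀ n, L ∈ Z n := by
  obtain ⟨L, hL⟩ := IsCompact.nonempty_iInter_of_sequence_nonempty_isCompact_isClosed Z hdec hne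
    (hcl 0).isCompact hcl
  exact ⟨L, fun n => Set.mem_iInter.1 hL n⟩

/-- points not killed by the list `l` -/
def avoid (l : List ℕ) : Set Can :=
  {y | ∀ w : List Bool, Encodable.encode w + 1 ∈ l → ¬ BegC w y}

theorem avoid_anti {l l' : List ℕ} (h : l <+: l') : avoid l' ⊆ avoid l :=
  fun _ hy w hw => hy w (h.subset hw)

/-- lists, not necessarily exhaustive, of elements of `S` -/
def EE (S : Set Can) : Set Can := {L | ∀ i, L (Nat.pair i 0) = true → ent L i ∈ S}

theorem EE_mono {S T : Set Can} (h : S ⊆ T) : EE S ⊆ EE T := fun _ hL i hi => h (hL i hi)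

theorem EE_avoid_closed (l : List ℕ) : IsClosed (EE (avoid l)) := by
  apply loc_closed
  intro L hL
  simp only [EE, Set.mem_ofPred_eq, not_forall] at hL
  obtain ⟨i, hi, hL⟩ := hL
  simp only [avoid, Set.mem_ofPred_eq, not_forall, not_not] at hL
  obtain ⟨w, hw, hb⟩ := hL
  refine ⟨Nat.pair i w.length + 1, fun L' hL' hE => ?_⟩
  have h1 : ∀ j ≤ w.length, L' (Nat.pair i j) = L (Nat.pair i j) := by
    intro j hj
    apply hL'
    rcases Nat.lt_or_eq_of_le hj with h | h
    · have := Nat.pair_lt_pair_right i h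
      omega
    · rw [h]; omega
  have h2 := hE i (by rw [h1 0 (Nat.zero_le _)]; exact hi) w hw
  apply h2
  intro j hj
  rw [hb j hj]
  show L (Nat.pair i (j + 1)) = L' (Nat.pair i (j + 1))
  rw [h1 (j + 1) hj]

/-- agreement of the first `k` entries -/
def agr (k : ℕ) (L L' : Can) : Prop := ∀ i < k, ∀ j, L (Nat.pair i j) = L' (Nat.pair i j)

/-- combination: the first `k` entries from `L`, the others from `L'` -/
def mix (k : ℕ) (L L' : Can) : Can := fun t => if (Nat.unpair t).1 < k then L t else L' t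

theorem mix_agr (k : ℕ) (L L' : Can) : agr k L (mix k L L') := by
  intro i hi j
  simp [mix, hi]

theorem mix_lt {k i : ℕ} (hi : i < k) (L L' : Can) (j : ℕ) :
    mix k L L' (Nat.pair i j) = L (Nat.pair i j) := by simp [mix, hi]

theorem mix_ge {k i : ℕ} (hi : k ≤ i) (L L' : Can) (j : ℕ) :
    mix k L L' (Nat.pair i j) = L' (Nat.pair i j) := by
  simp [mix, Nat.not_lt.2 hi]

theorem mix_EE {S : Set Can} (k : ℕ) {L L' : Can} (h : L ∈ EE S) (h' : L' ∈ EE S) :
    mix k L L' ∈ EE S := by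
  intro i hi
  by_cases hk : i < k
  · rw [mix_lt hk] at hi
    have : ent (mix k L L') i = ent L i := by funext j; exact mix_lt hk L L' (j + 1)
    rw [this]; exact h i hi
  · push Not at hk
    rw [mix_ge hk] at hi
    have : ent (mix k L L') i = ent L' i := by funext j; exact mix_ge hk L L' (j + 1)
    rw [this]; exact h' i hi

theorem IsL_iff {S : Set Can} {L : Can} :
    IsL S L ↔ L ∈ EE S ∧ ∀ y ∈ S, ∃ i, L (Nat.pair i 0) = true ∧ ent L i = y := by
  constructor
  · intro h
    have h' : S = {y | ∃ i, L (Nat.pair i 0) = true ∧ ent L i = y} := h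
    constructor
    · intro i hi
      rw [h']
      exact ⟨i, hi, rfl⟩
    · intro y hy
      rw [h'] at hy
      exact hy
  · rintro ⟨h1, h2⟩
    show S = _
    ext y
    constructor
    · exact h2 y
    · rintro ⟨i, hi, rfl⟩
      exact h1 i hi

theorem IsL.countable {S : Set Can} {L : Can} (h : IsL S L) : S.Countable := by
  have h' : S = {y | ∃ i, L (Nat.pair i 0) = true ∧ ent L i = y} := h
  rw [h']
  refine (Set.countable_range (ent L)).mono ?_
  rintro y ⟨i, -, rfl⟩
  exact ⟨i, rfl⟩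

/-- extension to a list -/
theorem exists_list {S : Set Can} (hS : S.Countable) {L : Can} (hL : L ∈ EE S) (k : ℕ) :
    ∃ L', IsL S L' ∧ agr k L L' := by
  rcases S.eq_empty_or_nonempty with h | h
  · refine ⟨L, IsL_iff.2 ⟨hL, fun y hy => ?_⟩, fun _ _ _ => rfl⟩
    rw [h] at hy; exact absurd hy (Set.notMem_empty y)
  · obtain ⟨a, ha⟩ := hS.exists_eq_range h
    let T : Can := fun t => if (Nat.unpair t).2 = 0 then true else
      a ((Nat.unpair t).1 - k) ((Nat.unpair t).2 - 1)
    have hT : ∀ i, ent T i = a (i - k) := by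
      intro i; funext j
      simp [T, ent]
    have hT0 : ∀ i, T (Nat.pair i 0) = true := by intro i; simp [T]
    have hTE : T ∈ EE S := by
      intro i _
      rw [hT, ha]; exact ⟨_, rfl⟩
    refine ⟨mix k L T, IsL_iff.2 ⟨mix_EE k hL hTE, fun y hy => ?_⟩, mix_agr k L T⟩
    rw [ha] at hy
    obtain ⟨n, rfl⟩ := hy
    refine ⟨k + n, ?_, ?_⟩
    · rw [mix_ge (by omega)]; exact hT0 _
    · have : ent (mix k L T) (k + n) = ent T (k + n) := by
        funext j; exact mix_ge (by omega) L T (j + 1)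
      rw [this, hT]
      congr 1
      omega

/-- good approximations of `p` -/
def Ap (w : ℕ → List ℕ) (p : Bai) : Prop :=
  (∀ n, Beg (w n) p) ∧ ∀ k, ∃ n0, ∀ n ≥ n0, k ≤ (w n).length

theorem Ap_seg (p : Bai) : Ap (fun n => seg p n) p :=
  ⟨fun n => Beg_seg p n, fun k => ⟨k, fun n hn => by simpa using hn⟩⟩

theorem Ap.map {w : ℕ → List ℕ} {p q : Bai} {F : List ℕ → List ℕ} (h : Ap w p)
    (hF : Incr F) (hm : Maps F p q) : Ap (fun n => F (w n)) q := by
  constructor
  · intro n
    have h3 : w n = seg p (w n).length := h.1 n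
    show Beg (F (w n)) q
    rw [h3]
    exact hm.1 _
  · intro k
    obtain ⟨m, hk⟩ := hm.2 k
    obtain ⟨n0, hn0⟩ := h.2 m
    exact ⟨n0, fun n hn => hk.trans (hF _ _ (Beg_ge (h.1 n) (hn0 n hn))).length_le⟩

theorem Ap.pair {w w' : ℕ → List ℕ} {p p' : Bai} (h : Ap w p) (h' : Ap w' p') :
    Ap (fun n => pairW (w n) (w' n)) (pair p p') := by
  constructor
  · intro n; exact pairW_beg (h.1 n) (h'.1 n)
  · intro k
    obtain ⟨n0, hn0⟩ := h.2 k
    obtain ⟨n1, hn1⟩ := h'.2 k
    refine ⟨max n0 n1, fun n hn => ?_⟩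
    have h1 := hn0 n (le_trans (le_max_left _ _) hn)
    have h3 := hn1 n (le_trans (le_max_right _ _) hn)
    rw [pairW_length]
    omega

theorem closedC_eq {w : ℕ → List ℕ} {v : Bai} (h : Ap w v) :
    closedC v = {z | ∀ n, z ∈ avoid (w n)} := by
  ext z
  constructor
  · intro hz n u hu hb
    obtain ⟨i, hi, h1⟩ := List.mem_iff_getElem.1 hu
    refine hz i u ?_ hb
    rw [← h1]
    exact (Beg_iff.1 (h.1 n) i hi).symm
  · intro hz n u hn hb
    obtain ⟨n0, hn0⟩ := h.2 (n + 1)
    have h5 : n < (w n0).length := hn0 n0 le_rfl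
    refine hz n0 u ?_ hb
    rw [← hn, ← Beg_iff.1 (h.1 n0) n h5]
    exact List.getElem_mem h5

end Pool.Agent.R575.LL
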