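import Pool.Agent.R575.WC.Words
import Pool.Agent.R575.WC.Loc

/-!
The listing problem on Cantor space and unique choice on Baire space.
-/

namespace Pool.Agent.R575.LL

open Pool.Agent.R575.WC

/-- Cantor space -/
abbrev Can := ℕ → Bool

/-- elements of Cantor space as elements of Baire space -/
def toB (L : Can) : Bai := fun n => if L n = true then 1 else 0

/-- the word `w` is an initial segment of `y` -/
def BegC (w : List Bool) (y : Can) : Prop := ∀ i (h : i < w.length), w[i] = y i

/-- The closed subset of Cantor space with (negative) name `p`: `p` lists codes (plus one) of words
whose cylinders cover the complement. -/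
def closedC (p : Bai) : Set Can :=
  {y | ∀ n w, p n = Encodable.encode (w : List Bool) + 1 → ¬ BegC w y}

/-- the `i`-th point `x_i` of the sequence of pairs `(b_i, x_i)` coded by `L`; the flag `b_i` is
`L (Nat.pair i 0)` -/
def ent (L : Can) (i : ℕ) : Can := fun j => L (Nat.pair i (j + 1))

/-- `L` codes a list of the set `S`: the elements of `S` are the `x_i` with `b_i = 1` -/
def IsL (S : Set Can) (L : Can) : Prop :=
  S = {y | ∃ i, L (Nat.pair i 0) = true ∧ ent L i = y}

/-- The listing problem: given a (countable) closed subset of Cantor space, find a list of its
elements. A closed set is in the domain iff it has a list, that is, iff it is countable. -/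
def Listing : Prob := fun p q => ∃ L : Can, q = toB L ∧ IsL (closedC p) L

/-- Unique choice on Baire space: given a closed set with exactly one element, find it. -/
def UC : Prob := fun p q => closedOf p = {q}

end Pool.Agent.R575.LL
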