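import Pool.Agent.R575.LL.Cpt

/-! The instances: closed sets with one element coding three levels of the arithmetical
hierarchy. -/

namespace Pool.Agent.R575.LL

open Pool.Agent.R575.WC

/-- `m` is the least element of `S` plus one, or `0` if `S` is empty -/
def mu (S : ℕ → Prop) (m : ℕ) : Prop :=
  (∀ k, m = 0 → ¬ S k) ∧ ∀ k, m = k + 1 → S k ∧ ∀ k' < k, ¬ S k'

theorem mu_ex (S : ℕ → Prop) : ∃ m, mu S m := by
  classical
  by_cases h : ∃ k, S k
  · refine ⟨Nat.find h + 1, fun k hk => absurd hk (by omega), fun k hk => ?_⟩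
    have h1 : Nat.find h = k := by omega
    subst h1
    exact ⟨Nat.find_spec h, fun k' hk' => Nat.find_min h hk'⟩
  · push Not at h
    exact ⟨0, fun k _ => h k, fun k hk => absurd hk (by omega)⟩

theorem mu_uniq {S : ℕ → Prop} {m m' : ℕ} (h : mu S m) (h' : mu S m') : m = m' := by
  rcases m with _ | m <;> rcases m' with _ | m'
  · rfl
  · exact absurd (h'.2 m' rfl).1 (h.1 m' rfl)
  · exact absurd (h.2 m rfl).1 (h'.1 m rfl)
  · obtain ⟨h1, h2⟩ := h.2 m rfl
    obtain ⟨h3, h4⟩ := h'.2 m' rfl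
    rcases lt_trichotomy m m' with h5 | h5 | h5
    · exact absurd h1 (h4 m h5)
    · rw [h5]
    · exact absurd h3 (h2 m' h5)

theorem mu_ne {S : ℕ → Prop} {m : ℕ} (h : mu S m) : m ≠ 0 ↔ ∃ k, S k := by
  constructor
  · intro h1
    obtain ⟨k, rfl⟩ := Nat.exists_eq_succ_of_ne_zero h1
    exact ⟨k, (h.2 k rfl).1⟩
  · rintro ⟨k, hk⟩ h1
    exact h.1 k h1 hk

theorem LC.not {P : Bai → Bai → Prop} (h : LC P) : LC (fun x y => ¬ P x y) :=
  h.map (fun a => ¬ a)

theorem Cl.and {F G : Bai → Bai → Prop} (hF : Cl F) (hG : Cl G) :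
    Cl (fun x y => F x y ∧ G x y) := by
  intro x y h
  constructor
  · apply hF x y
    intro N
    obtain ⟨x', y', h1, h2, h3⟩ := h N
    exact ⟨x', y', h1, h2, h3.1⟩
  · apply hG x y
    intro N
    obtain ⟨x', y', h1, h2, h3⟩ := h N
    exact ⟨x', y', h1, h2, h3.2⟩

theorem Cl_mu {S : ℕ → Bai → Bai → Prop} {m : Bai → Bai → ℕ} (hS : ∀ k, LC (S k)) (hm : LC m) :
    Cl (fun x y => mu (fun k => S k x y) (m x y)) := by
  unfold mu
  refine Cl.and (Cl.all fun k => LC.cl ?_) (Cl.all fun k => LC.cl ?_)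
  · exact (hm.map (fun a => a = 0)).imp (LC.not (hS k))
  · exact (hm.map (fun a => a = k + 1)).imp ((hS k).and (LC.all k fun k' => LC.not (hS k')))

/-- the universal matrix -/
def P3 (i j k : ℕ) (x : Bai) : Prop := x (Encodable.encode (i, j, k, seg x k)) = 0

theorem LC_P3 (i j k : ℕ) : LC (fun x _ => P3 i j k x) := by
  unfold P3
  have h1 : LC (fun x _ => x (Encodable.encode (i, j, k, seg x k))) :=
    LC.bind (f := fun x _ => Encodable.encode (i, j, k, seg x k)) (g := fun a x _ => x a)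
      ((LC.segx k).map (fun s => Encodable.encode (i, j, k, s))) (fun a => LC.coordx a)
  exact h1.map (fun a => a = 0)

/-- the instances -/
def RR (x y : Bai) : Prop :=
  (∀ i j, mu (fun k => P3 i j k x) (y (2 * Nat.pair i j + 2))) ∧
  (∀ i, mu (fun j => y (2 * Nat.pair i j + 2) = 0) (y (2 * i + 1))) ∧
  mu (fun i => y (2 * i + 1) = 0) (y 0)

theorem RR_cl : Cl RR := by
  unfold RR
  refine Cl.and (Cl.all fun i => Cl.all fun j => ?_) (Cl.and (Cl.all fun i => ?_) ?_)
  · exact Cl_mu (fun k => LC_P3 i j k) (LC.coordy _)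
  · exact Cl_mu (S := fun j _ y => y (2 * Nat.pair i j + 2) = 0)
      (fun j => (LC.coordy _).map (fun a => a = 0)) (LC.coordy _)
  · exact Cl_mu (S := fun i _ y => y (2 * i + 1) = 0)
      (fun j => (LC.coordy _).map (fun a => a = 0)) (LC.coordy _)

theorem RR_ex (x : Bai) : ∃ y, RR x y := by
  have h1 : ∀ i j, ∃ m, mu (fun k => P3 i j k x) m := fun i j => mu_ex _
  choose K hK using h1
  have h2 : ∀ i, ∃ m, mu (fun j => K i j = 0) m := fun i => mu_ex _
  choose J hJ using h2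
  obtain ⟨I, hI⟩ := mu_ex (fun i => J i = 0)
  let y : Bai := fun t => if t = 0 then I else if t % 2 = 1 then J (t / 2) else
    K (Nat.unpair ((t - 2) / 2)).1 (Nat.unpair ((t - 2) / 2)).2
  have y0 : y 0 = I := rfl
  have y1 : ∀ i, y (2 * i + 1) = J i := by
    intro i
    have e1 : (2 * i + 1) % 2 = 1 := by omega
    have e2 : (2 * i + 1) / 2 = i := by omega
    simp [y, e1, e2]
  have y2 : ∀ i j, y (2 * Nat.pair i j + 2) = K i j := by
    intro i j
    have e1 : (2 * Nat.pair i j + 2) % 2 = 0 := by omega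
    have e2 : (2 * Nat.pair i j + 2 - 2) / 2 = Nat.pair i j := by omega
    simp only [y, e1, e2]
    simp
  refine ⟨y, ?_, ?_, ?_⟩
  · intro i j; rw [y2]; exact hK i j
  · intro i; simp only [y1, y2]; exact hJ i
  · simp only [y1]; rw [y0]; exact hI

theorem RR_uniq {x y y' : Bai} (h : RR x y) (h' : RR x y') : y = y' := by
  have e2 : ∀ i j, y (2 * Nat.pair i j + 2) = y' (2 * Nat.pair i j + 2) := fun i j =>
    mu_uniq (h.1 i j) (h'.1 i j)
  have e1 : ∀ i, y (2 * i + 1) = y' (2 * i + 1) := by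
    intro i
    have h1 := h.2.1 i
    have h2 := h'.2.1 i
    simp only [e2] at h1
    exact mu_uniq h1 h2
  have e0 : y 0 = y' 0 := by
    have h1 := h.2.2
    have h2 := h'.2.2
    simp only [e1] at h1
    exact mu_uniq h1 h2
  funext t
  rcases Nat.even_or_odd' t with ⟨s, h1 | h1⟩
  · rcases s with _ | s
    · rw [h1]; exact e0
    · have := e2 (Nat.unpair s).1 (Nat.unpair s).2
      rw [Nat.pair_unpair] at this
      rw [h1]
      exact this
  · rw [h1]; exact e1 s

theorem RR_zero {x y : Bai} (h : RR x y) : y 0 = 0 ↔ ¬ ∃ i, ∀ j, ∃ k, P3 i j k x := by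
  have h0 := mu_ne h.2.2
  rw [← not_iff_not, not_not]
  rw [show (¬ y 0 = 0) ↔ y 0 ≠ 0 from Iff.rfl, h0]
  refine exists_congr fun i => ?_
  have h1 := mu_ne (h.2.1 i)
  rw [← not_iff_not]
  rw [show (¬ y (2 * i + 1) = 0) ↔ y (2 * i + 1) ≠ 0 from Iff.rfl, h1]
  push Not
  refine exists_congr fun j => ?_
  have h2 := mu_ne (h.1 i j)
  rw [← not_iff_not]
  rw [show (¬ y (2 * Nat.pair i j + 2) = 0) ↔ y (2 * Nat.pair i j + 2) ≠ 0 from Iff.rfl, h2]
  push Not
  rfl

/-- the name of the instance -/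
noncomputable def px (x : Bai) : Bai := nm RR x

theorem px_spec (x : Bai) : ∃ y, closedOf (px x) = {y} ∧ RR x y := by
  obtain ⟨y, hy⟩ := RR_ex x
  refine ⟨y, ?_, hy⟩
  have : closedOf (px x) = {y | RR x y} := nm_closed RR_cl x
  rw [this]
  ext y'
  constructor
  · intro h; exact RR_uniq h hy
  · intro h
    rw [Set.mem_singleton_iff.1 h]; exact hy

/-- universality -/
theorem universal {Q : ℕ → ℕ → ℕ → Bai → Prop} (hQ : ∀ i j k, LC (fun x _ => Q i j k x)) :
    ∃ c : Bai, ∀ i j, (∃ k, P3 i j k c) ↔ ∃ k, Q i j k c := by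
  classical
  let c : Bai := fun t =>
    if ∃ k' ≤ (Denumerable.ofNat (ℕ × ℕ × ℕ × List ℕ) t).2.2.1,
      ∀ x', Beg (Denumerable.ofNat (ℕ × ℕ × ℕ × List ℕ) t).2.2.2 x' →
        Q (Denumerable.ofNat (ℕ × ℕ × ℕ × List ℕ) t).1
          (Denumerable.ofNat (ℕ × ℕ × ℕ × List ℕ) t).2.1 k' x' then 0 else 1
  have hc : ∀ i j k w, c (Encodable.encode (i, j, k, w)) = 0 ↔
      ∃ k' ≤ k, ∀ x', Beg w x' → Q i j k' x' := by
    intro i j k w
    simp only [c, Denumerable.ofNat_encode]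
    split_ifs with h
    · simp only [true_iff]; exact h
    · simp only [one_ne_zero, false_iff]; exact h
  refine ⟨c, fun i j => ?_⟩
  constructor
  · rintro ⟨k, hk⟩
    obtain ⟨k', -, h1⟩ := (hc i j k (seg c k)).1 hk
    exact ⟨k', h1 c (Beg_seg c k)⟩
  · rintro ⟨k', hk'⟩
    obtain ⟨N, hN⟩ := hQ i j k' c c
    refine ⟨max k' N, (hc i j _ _).2 ⟨k', le_max_left _ _, fun x' hx' => ?_⟩⟩
    have h1 : seg c (max k' N) = seg x' (max k' N) := by
      have : seg c (max k' N) = seg x' (seg c (max k' N)).length := hx'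
      simpa using this
    have h2 := hN x' c (fun k hk => (seg_inj h1 k (lt_of_lt_of_le hk (le_max_right _ _))).symm)
      (fun _ _ => rfl)
    simp only at h2
    rw [h2]; exact hk'

end Pool.Agent.R575.LL
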