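import Pool.Agent.R575.LL.Inst

/-! Unique choice on Baire space is not below the composition of two listing problems. -/

namespace Pool.Agent.R575.LL

open Pool.Agent.R575.WC

/-- the six word functions of the reductions -/
structure WF where
  F1 : List ℕ → List ℕ
  G1 : List ℕ → List ℕ
  F2 : List ℕ → List ℕ
  G2 : List ℕ → List ℕ
  F3 : List ℕ → List ℕ
  G3 : List ℕ → List ℕ
  i1 : Incr F1
  j1 : Incr G1
  i2 : Incr F2
  j2 : Incr G2
  i3 : Incr F3
  j3 : Incr G3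

namespace WF

variable (D : WF)

def V (P : List ℕ) : List ℕ := D.F2 (D.F1 P)
def Q (P l : List ℕ) : List ℕ := D.G2 (pairW (D.F1 P) l)
def W (P l : List ℕ) : List ℕ := D.F3 (D.Q P l)
def O (P l m : List ℕ) : List ℕ := D.G1 (pairW P (D.G3 (pairW (D.Q P l) m)))

theorem V_mono {P P' : List ℕ} (hP : P <+: P') : D.V P <+: D.V P' := D.i2 _ _ (D.i1 _ _ hP)

theorem W_mono {P P' l l' : List ℕ} (hP : P <+: P') (hl : l <+: l') : D.W P l <+: D.W P' l' :=
  D.i3 _ _ (D.j2 _ _ (pairW_mono (D.i1 _ _ hP) hl))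

/-- the approximation to the first closed set -/
def Ast (x : Bai) (s : ℕ) : Set Can := avoid (D.V (seg (px x) s))

/-- the first closed set -/
def A (x : Bai) : Set Can := {z | ∀ s, z ∈ D.Ast x s}

/-- the second closed set -/
def B (x : Bai) (L : Can) : Set Can :=
  {z | ∀ n, z ∈ avoid (D.W (seg (px x) n) (seg (toB L) n))}

/-- the approximation at stage `N` of: the output zero is reached with the word `μ` -/
def CN (P l μ : List ℕ) : Prop :=
  (μ.length ≤ P.length → (D.O (P.take μ.length) (l.take μ.length) μ)[0]? = some 0) ∧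
  ∃ M : Can, Beg μ (toB M) ∧ M ∈ EE (avoid (D.W P l))

def CNx (N : ℕ) (x : Bai) (μ : List ℕ) (L : Can) : Prop :=
  D.CN (seg (px x) N) (seg (toB L) N) μ

def C (x : Bai) (μ : List ℕ) (L : Can) : Prop := ∀ N, D.CNx N x μ L

theorem toB_agr {L L' : Can} {N : ℕ} (h : ∀ t < N, L' t = L t) :
    seg (toB L') N = seg (toB L) N := by
  apply seg_ext
  intro i hi
  simp [toB, h i hi]

theorem CNx_congr {N : ℕ} {x : Bai} {μ : List ℕ} {L L' : Can} (h : ∀ t < N, L' t = L t) :
    D.CNx N x μ L' ↔ D.CNx N x μ L := by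
  unfold CNx
  rw [toB_agr h]

theorem CNx_succ {N : ℕ} {x : Bai} {μ : List ℕ} {L : Can} (h : D.CNx (N + 1) x μ L) :
    D.CNx N x μ L := by
  obtain ⟨h1, M, h2, h3⟩ := h
  refine ⟨fun hN => ?_, M, h2, ?_⟩
  · rw [seg_length] at hN
    have := h1 (by rw [seg_length]; omega)
    rw [seg_take _ hN, seg_take _ hN]
    rw [seg_take _ (by omega), seg_take _ (by omega)] at this
    exact this
  · exact EE_mono (avoid_anti (D.W_mono (seg_le _ (Nat.le_succ N)) (seg_le _ (Nat.le_succ N)))) h3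

theorem C_iff {x : Bai} {μ : List ℕ} {L : Can} : D.C x μ L ↔
    (D.O (seg (px x) μ.length) (seg (toB L) μ.length) μ)[0]? = some 0 ∧
    ∃ M : Can, Beg μ (toB M) ∧ M ∈ EE (D.B x L) := by
  constructor
  · intro h
    constructor
    · have := (h μ.length).1 (by simp)
      rw [seg_take _ le_rfl, seg_take _ le_rfl] at this
      exact this
    · obtain ⟨M, hM⟩ := cpt (fun N => {M : Can | Beg μ (toB M) ∧
          M ∈ EE (avoid (D.W (seg (px x) N) (seg (toB L) N)))}) (fun N => by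
          refine IsClosed.inter (loc_closed ?_) (EE_avoid_closed _)
          intro M hM
          refine ⟨μ.length, fun M' hM' hb => hM ?_⟩
          have hb' : μ = seg (toB M') μ.length := hb
          rw [toB_agr hM'] at hb'
          exact hb') (fun N M hM => ⟨hM.1, EE_mono (avoid_anti (D.W_mono
            (seg_le _ (Nat.le_succ N)) (seg_le _ (Nat.le_succ N)))) hM.2⟩) (fun N => by
          obtain ⟨M, h1, h2⟩ := (h N).2
          exact ⟨M, h1, h2⟩)
      refine ⟨M, (hM 0).1, fun i hi n => (hM n).2 i hi⟩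
  · rintro ⟨h1, M, h2, h3⟩ N
    refine ⟨fun hN => ?_, M, h2, fun i hi => h3 i hi N⟩
    rw [seg_length] at hN
    rw [seg_take _ hN, seg_take _ hN]
    exact h1

/-- agreement of the first `k` entries up to `N` -/
def agrN (N k : ℕ) (L L' : Can) : Prop := ∀ t < N, (Nat.unpair t).1 < k → L t = L' t

/-- the approximation -/
def PsiP (P Ps : List ℕ) (μ : List ℕ) (k N : ℕ) : Prop :=
  ∃ L ∈ EE (avoid (D.V Ps)), ∀ L' ∈ EE (avoid (D.V Ps)), agrN N k L L' →
    D.CN P (seg (toB L') N) μ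

def Psi (N s : ℕ) (x : Bai) (μ : List ℕ) (k : ℕ) : Prop :=
  D.PsiP (seg (px x) N) (seg (px x) s) μ k N

theorem LC_Psi (N s : ℕ) (μ : List ℕ) (k : ℕ) : LC (fun x _ => D.Psi N s x μ k) :=
  (LC.segnm RR N).map2 (LC.segnm RR s) (fun P Ps => D.PsiP P Ps μ k N)

/-- the forcing condition -/
def Dc (x : Bai) (μ : List ℕ) (k : ℕ) : Prop :=
  ∃ L ∈ EE (D.A x), ∀ L' ∈ EE (D.A x), agr k L L' → D.C x μ L'

theorem Ast_anti (x : Bai) {s s' : ℕ} (h : s ≤ s') : D.Ast x s' ⊆ D.Ast x s :=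
  avoid_anti (D.V_mono (seg_le _ h))

theorem EE_A {x : Bai} {L : Can} (h : ∀ s, L ∈ EE (D.Ast x s)) : L ∈ EE (D.A x) :=
  fun i hi s => h s i hi

theorem A_sub (x : Bai) (s : ℕ) : EE (D.A x) ⊆ EE (D.Ast x s) := EE_mono (fun _ hz => hz s)

theorem EE_A_closed (x : Bai) : IsClosed (EE (D.A x)) := by
  have : EE (D.A x) = ⋂ s, EE (D.Ast x s) := by
    ext L
    rw [Set.mem_iInter]
    exact ⟨fun h s => D.A_sub x s h, fun h => D.EE_A h⟩
  rw [this]
  exact isClosed_iInter fun s => EE_avoid_closed _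

theorem stage (x : Bai) (N : ℕ) : ∃ s0, ∀ s ≥ s0, ∀ L ∈ EE (D.Ast x s),
    ∃ L' ∈ EE (D.A x), ∀ t < N, L' t = L t := by
  by_contra hcon
  push Not at hcon
  obtain ⟨L, hL⟩ := cpt (fun s => {L : Can | L ∈ EE (D.Ast x s) ∧
      ∀ L' ∈ EE (D.A x), ∃ t < N, L' t ≠ L t}) (fun s => by
      refine IsClosed.inter (EE_avoid_closed _) (loc_closed ?_)
      intro L hL
      refine ⟨N, fun L1 hL1 h => hL ?_⟩
      intro L' hL'
      obtain ⟨t, ht, h2⟩ := h L' hL'
      exact ⟨t, ht, by rw [← hL1 t ht]; exact h2⟩)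
    (fun s L hL => ⟨EE_mono (D.Ast_anti x (Nat.le_succ s)) hL.1, hL.2⟩) (fun s => by
      obtain ⟨s', hs', L, hL, h⟩ := hcon s
      exact ⟨L, EE_mono (D.Ast_anti x hs') hL, h⟩)
  obtain ⟨t, -, h⟩ := (hL 0).2 L (D.EE_A fun s => (hL s).1)
  exact h rfl

theorem agr_of_mix_N {N k : ℕ} {L L' : Can} (h : agrN N k L L') :
    ∀ t < N, mix k L L' t = L' t := by
  intro t ht
  unfold mix
  split_ifs with h1
  · exact h t ht h1
  · rfl

theorem Dc_iff (x : Bai) (μ : List ℕ) (k : ℕ) :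
    D.Dc x μ k ↔ ∀ N s, ∃ s' ≥ s, D.Psi N s' x μ k := by
  constructor
  · rintro ⟨L, hL, h⟩ N s
    obtain ⟨s0, hs0⟩ := D.stage x N
    refine ⟨max s s0, le_max_left _ _, L, D.A_sub x _ hL, fun L' hL' hag => ?_⟩
    obtain ⟨L1, hL1, h1⟩ := hs0 (max s s0) (le_max_right _ _) L' hL'
    have h2 := h (mix k L L1) (mix_EE k hL hL1) (mix_agr k L L1) N
    have h3 : ∀ t < N, mix k L L1 t = L' t := by
      intro t ht
      unfold mix
      split_ifs with h4
      · exact hag t ht h4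
      · exact h1 t ht
    exact (D.CNx_congr (fun t ht => (h3 t ht).symm)).2 h2
  · intro h
    have key : ∀ N, ∃ L ∈ EE (D.A x), ∀ L' ∈ EE (D.A x), agrN N k L L' → D.CNx N x μ L' := by
      intro N
      obtain ⟨s0, hs0⟩ := D.stage x N
      obtain ⟨s', hs', L, hL, h1⟩ := h N s0
      obtain ⟨L1, hL1, h2⟩ := hs0 s' hs' L hL
      refine ⟨L1, hL1, fun L' hL' hag => h1 L' (D.A_sub x _ hL') ?_⟩
      intro t ht hk
      rw [← h2 t ht]
      exact hag t ht hk
    obtain ⟨L, hL⟩ := cpt (fun N => {L : Can | L ∈ EE (D.A x) ∧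
        ∀ L' ∈ EE (D.A x), agrN N k L L' → D.CNx N x μ L'}) (fun N => by
        refine IsClosed.inter (D.EE_A_closed x) (loc_closed ?_)
        intro L hL
        refine ⟨N, fun L1 hL1 h => hL ?_⟩
        intro L' hL' hag
        exact h L' hL' (fun t ht hk => by rw [hL1 t ht]; exact hag t ht hk))
      (fun N L hL => by
        refine ⟨hL.1, fun L' hL' hag => ?_⟩
        have h3 := hL.2 (mix k L L') (mix_EE k hL.1 hL') (fun t _ hk => by simp [mix, hk])
        exact (D.CNx_congr (agr_of_mix_N hag)).1 (D.CNx_succ h3)) (fun N => by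
        obtain ⟨L, hL, h1⟩ := key N
        exact ⟨L, hL, h1⟩)
    refine ⟨L, (hL 0).1, fun L' hL' hag N => ?_⟩
    exact (hL N).2 L' hL' (fun t ht hk => by
      have := hag (Nat.unpair t).1 hk (Nat.unpair t).2
      rw [Nat.pair_unpair] at this
      exact this)

/-- the hypotheses -/
structure OK (f0 g0 : Prob) : Prop where
  r1 : ∀ p, (∃ q, UC p q) → ∃ u, Maps D.F1 p u ∧ (∃ v, comp f0 g0 u v) ∧
      ∀ v, comp f0 g0 u v → ∃ r, Maps D.G1 (pair p v) r ∧ UC p r
  r2 : ∀ p, (∃ q, g0 p q) → ∃ u, Maps D.F2 p u ∧ (∃ v, Listing u v) ∧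
      ∀ v, Listing u v → ∃ r, Maps D.G2 (pair p v) r ∧ g0 p r
  r3 : ∀ p, (∃ q, f0 p q) → ∃ u, Maps D.F3 p u ∧ (∃ v, Listing u v) ∧
      ∀ v, Listing u v → ∃ r, Maps D.G3 (pair p v) r ∧ f0 p r

theorem conv {f0 g0 : Prob} (hD : D.OK f0 g0) {x y : Bai} (hy : closedOf (px x) = {y}) :
    (D.A x).Countable ∧ ∀ L, IsL (D.A x) L → (D.B x L).Countable ∧
      ∀ M, IsL (D.B x L) M →
        Ap (fun n => D.O (seg (px x) n) (seg (toB L) n) (seg (toB M) n)) y := by
  obtain ⟨u, hu, ⟨r0, hdom, q0, hq0, -⟩, hr⟩ := hD.r1 (px x) ⟨y, hy⟩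
  obtain ⟨v, hv, ⟨_, L0, -, hL0⟩, hv2⟩ := hD.r2 u ⟨q0, hq0⟩
  have a1 : Ap (fun n => seg (px x) n) (px x) := Ap_seg _
  have a2 : Ap (fun n => D.F1 (seg (px x) n)) u := a1.map D.i1 hu
  have a3 : Ap (fun n => D.V (seg (px x) n)) v := a2.map D.i2 hv
  have hA : closedC v = D.A x := closedC_eq a3
  rw [hA] at hL0
  refine ⟨hL0.countable, fun L hL => ?_⟩
  obtain ⟨q, hq, hgq⟩ := hv2 (toB L) ⟨L, rfl, by rw [hA]; exact hL⟩
  obtain ⟨t, ht, ⟨_, M0, -, hM0⟩, hm⟩ := hD.r3 q (hdom q hgq)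
  have a4 : Ap (fun n => D.Q (seg (px x) n) (seg (toB L) n)) q :=
    (a2.pair (Ap_seg (toB L))).map D.j2 hq
  have a5 : Ap (fun n => D.W (seg (px x) n) (seg (toB L) n)) t := a4.map D.i3 ht
  have hB : closedC t = D.B x L := closedC_eq a5
  rw [hB] at hM0
  refine ⟨hM0.countable, fun M hM => ?_⟩
  obtain ⟨r, hr3, hf⟩ := hm (toB M) ⟨M, rfl, by rw [hB]; exact hM⟩
  obtain ⟨y', hy', hy2⟩ := hr r ⟨hdom, q, hgq, hf⟩
  have a6 : Ap (fun n => D.G3 (pairW (D.Q (seg (px x) n) (seg (toB L) n)) (seg (toB M) n))) r :=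
    (a4.pair (Ap_seg (toB M))).map D.j3 hr3
  have a7 : Ap (fun n => D.O (seg (px x) n) (seg (toB L) n) (seg (toB M) n)) y' :=
    (a1.pair a6).map D.j1 hy'
  have : y' = y := by
    have h1 : closedOf (px x) = {y'} := hy2
    rw [hy] at h1
    exact (Set.singleton_injective h1).symm
  rw [← this]
  exact a7

/-- the generic list -/
theorem generic {x : Bai} (hA : (D.A x).Countable)
    (h : ∀ μ k, ¬ D.Dc x μ k) : ∃ L, IsL (D.A x) L ∧ ∀ μ, ¬ D.C x μ L := by
  have hstep : ∀ (μ : List ℕ) (k : ℕ) (L : Can), L ∈ EE (D.A x) →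
      ∃ L' ∈ EE (D.A x), agr k L L' ∧ ¬ D.C x μ L' := by
    intro μ k L hL
    have h1 := h μ k
    unfold Dc at h1
    push Not at h1
    exact h1 L hL
  -- an enumeration of the set, if it is not empty
  obtain ⟨a, ha⟩ : ∃ a : ℕ → Can, (∀ z ∈ D.A x, ∃ n, a n = z) ∧
      ((D.A x).Nonempty → ∀ n, a n ∈ D.A x) := by
    rcases (D.A x).eq_empty_or_nonempty with h1 | h1
    · refine ⟨fun _ _ => false, fun z hz => ?_, fun h2 => ?_⟩
      · rw [h1] at hz; exact absurd hz (Set.notMem_empty z)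
      · rw [h1] at h2; exact absurd h2 Set.not_nonempty_empty
    · obtain ⟨a, ha⟩ := hA.exists_eq_range h1
      exact ⟨a, fun z hz => by rw [ha] at hz; exact hz, fun _ n => by rw [ha]; exact ⟨n, rfl⟩⟩
  -- one step
  have step : ∀ (n : ℕ) (S : {S : Can × ℕ // S.1 ∈ EE (D.A x)}),
      ∃ S' : {S : Can × ℕ // S.1 ∈ EE (D.A x)}, S.1.2 < S'.1.2 ∧ agr S.1.2 S.1.1 S'.1.1 ∧
        (∀ L', agr S'.1.2 S'.1.1 L' → ¬ D.C x (Denumerable.ofNat (List ℕ) n) L') ∧
        ((D.A x).Nonempty → ∃ i < S'.1.2, S'.1.1 (Nat.pair i 0) = true ∧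
          ent S'.1.1 i = a n) := by
    rintro n ⟨⟨L, k⟩, hL⟩
    obtain ⟨L1, hL1, hag, hC⟩ := hstep (Denumerable.ofNat (List ℕ) n) k L hL
    have hN : ∃ N, ¬ D.CNx N x (Denumerable.ofNat (List ℕ) n) L1 := by
      unfold C at hC
      push Not at hC
      exact hC
    obtain ⟨N, hN⟩ := hN
    have hfr : ∀ L', agr (max k N) L1 L' → ¬ D.C x (Denumerable.ofNat (List ℕ) n) L' := by
      intro L' hag' hC'
      apply hN
      refine (D.CNx_congr ?_).2 (hC' N)
      intro t ht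
      have h1 : (Nat.unpair t).1 < max k N :=
        lt_of_lt_of_le (lt_of_le_of_lt (Nat.unpair_left_le t) ht) (le_max_right _ _)
      have h2 := hag' (Nat.unpair t).1 h1 (Nat.unpair t).2
      rw [Nat.pair_unpair] at h2
      exact h2
    by_cases hne : (D.A x).Nonempty
    · let T : Can := fun t => if (Nat.unpair t).2 = 0 then true else a n ((Nat.unpair t).2 - 1)
      have hT : ∀ i, ent T i = a n := by
        intro i; funext j
        simp [T, ent]
      have hT0 : ∀ i, T (Nat.pair i 0) = true := by intro i; simp [T]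
      have hTE : T ∈ EE (D.A x) := fun i _ => by rw [hT]; exact ha.2 hne n
      refine ⟨⟨⟨mix (max k N) L1 T, max k N + 1⟩, mix_EE _ hL1 hTE⟩, ?_, ?_, ?_, fun _ => ?_⟩
      · show k < max k N + 1
        omega
      · intro i hi j
        have hi' : i < k := hi
        show L (Nat.pair i j) = mix (max k N) L1 T (Nat.pair i j)
        rw [mix_lt (by omega)]
        exact hag i hi j
      · intro L' hag'
        apply hfr
        intro i hi j
        rw [← hag' i (by show i < max k N + 1; omega) j]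
        exact (mix_lt hi L1 T j).symm
      · refine ⟨max k N, Nat.lt_succ_self _, ?_, ?_⟩
        · show mix (max k N) L1 T (Nat.pair (max k N) 0) = true
          rw [mix_ge le_rfl]; exact hT0 _
        · refine Eq.trans ?_ (hT (max k N))
          funext j
          exact mix_ge le_rfl L1 T (j + 1)
    · refine ⟨⟨⟨L1, max k N + 1⟩, hL1⟩, ?_, hag, ?_, fun h2 => absurd h2 hne⟩
      · show k < max k N + 1
        omega
      · intro L' hag'
        apply hfr
        intro i hi j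
        exact hag' i (by show i < max k N + 1; omega) j
  choose nx h1 h2 h3 h4 using step
  have hempty : (fun _ => false : Can) ∈ EE (D.A x) := fun i hi => absurd hi (by simp)
  let S : ℕ → {S : Can × ℕ // S.1 ∈ EE (D.A x)} := fun n =>
    Nat.rec ⟨⟨fun _ => false, 0⟩, hempty⟩ (fun n s => nx n s) n
  have hSs : ∀ n, S (n + 1) = nx n (S n) := fun n => rfl
  have hk : ∀ n, n ≤ (S n).1.2 := by
    intro n
    induction n with
    | zero => exact Nat.zero_le _
    | succ n ih =>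
      have := h1 n (S n)
      rw [hSs]; omega
  have hkm : ∀ m n, m ≤ n → (S m).1.2 ≤ (S n).1.2 ∧ agr (S m).1.2 (S m).1.1 (S n).1.1 := by
    intro m n hmn
    induction n, hmn using Nat.le_induction with
    | base => exact ⟨le_rfl, fun _ _ _ => rfl⟩
    | succ n hn ih =>
      obtain ⟨i1, i2⟩ := ih
      have e1 := h1 n (S n)
      have e2 := h2 n (S n)
      rw [← hSs] at e1 e2
      refine ⟨by omega, fun i hi j => ?_⟩
      rw [i2 i hi j]
      exact e2 i (by omega) j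
  let L : Can := fun t => (S ((Nat.unpair t).1 + 1)).1.1 t
  have hLa : ∀ n, agr (S n).1.2 (S n).1.1 L := by
    intro n i hi j
    show _ = (S ((Nat.unpair (Nat.pair i j)).1 + 1)).1.1 (Nat.pair i j)
    rw [Nat.unpair_pair]
    rcases le_total n (i + 1) with h5 | h5
    · exact (hkm n (i + 1) h5).2 i hi j
    · exact ((hkm (i + 1) n h5).2 i (lt_of_lt_of_le (Nat.lt_succ_self i) (hk (i + 1))) j).symm
  have hent : ∀ n i, i < (S n).1.2 → ent L i = ent (S n).1.1 i := by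
    intro n i hi
    funext j
    exact (hLa n i hi (j + 1)).symm
  refine ⟨L, IsL_iff.2 ⟨?_, ?_⟩, ?_⟩
  · intro i hi
    have h5 : i < (S (i + 1)).1.2 := lt_of_lt_of_le (Nat.lt_succ_self i) (hk (i + 1))
    rw [hent (i + 1) i h5]
    apply (S (i + 1)).2 i
    rw [hLa (i + 1) i h5 0]
    exact hi
  · intro z hz
    obtain ⟨n, rfl⟩ := ha.1 z hz
    obtain ⟨i, hi, h5, h6⟩ := h4 n (S n) ⟨_, hz⟩
    rw [← hSs] at hi h5 h6
    refine ⟨i, ?_, ?_⟩
    · rw [← hLa (n + 1) i hi 0]; exact h5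
    · rw [hent (n + 1) i hi]; exact h6
  · intro μ
    have := h3 (Encodable.encode μ) (S (Encodable.encode μ)) L (by
      rw [← hSs]; exact hLa (Encodable.encode μ + 1))
    rw [Denumerable.ofNat_encode] at this
    exact this

theorem value {f0 g0 : Prob} (hD : D.OK f0 g0) {x y : Bai} (hy : closedOf (px x) = {y}) :
    y 0 = 0 ↔ ∃ μ k, D.Dc x μ k := by
  obtain ⟨hA, hL⟩ := D.conv hD hy
  constructor
  · intro h0
    by_contra hcon
    push Not at hcon
    obtain ⟨L, h1, h2⟩ := D.generic hA hcon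
    obtain ⟨hB, hM⟩ := hL L h1
    have hempty : (fun _ => false : Can) ∈ EE (D.B x L) := fun i hi => absurd hi (by simp)
    obtain ⟨M, h3, -⟩ := exists_list hB hempty 0
    obtain ⟨h4, h5⟩ := hM M h3
    obtain ⟨n0, hn0⟩ := h5 1
    have h6 : 1 ≤ (D.O (seg (px x) n0) (seg (toB L) n0) (seg (toB M) n0)).length :=
      hn0 n0 le_rfl
    apply h2 (seg (toB M) n0)
    rw [C_iff, seg_length]
    refine ⟨?_, M, Beg_seg _ _, (IsL_iff.1 h3).1⟩
    rw [List.getElem?_eq_getElem (by omega), Beg_iff.1 (h4 n0), h0]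
  · rintro ⟨μ, k, L, h1, h2⟩
    obtain ⟨L', h3, h4⟩ := exists_list hA h1 k
    obtain ⟨h5, M, h6, h7⟩ := D.C_iff.1 (h2 L' (IsL_iff.1 h3).1 h4)
    obtain ⟨hB, hM⟩ := hL L' h3
    obtain ⟨M', h8, h9⟩ := exists_list hB h7 μ.length
    have h10 : μ = seg (toB M') μ.length := by
      have h11 : μ = seg (toB M) μ.length := h6
      rw [h11, seg_length]
      apply seg_ext
      intro t ht
      have h12 : (Nat.unpair t).1 < μ.length := lt_of_le_of_lt (Nat.unpair_left_le t) ht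
      have h13 := h9 (Nat.unpair t).1 h12 (Nat.unpair t).2
      rw [Nat.pair_unpair] at h13
      simp [toB, h13]
    have h14 : Beg (D.O (seg (px x) μ.length) (seg (toB L') μ.length) μ) y := by
      have h17 : Beg (D.O (seg (px x) μ.length) (seg (toB L') μ.length)
        (seg (toB M') μ.length)) y := (hM M' h8).1 μ.length
      rw [← h10] at h17
      exact h17
    obtain ⟨h15, h16⟩ := List.getElem?_eq_some_iff.1 h5
    rw [← Beg_iff.1 h14 0 h15, h16]

theorem contradiction {f0 g0 : Prob} (hD : D.OK f0 g0) : False := by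
  obtain ⟨c, hc⟩ := universal (Q := fun i j s x =>
      (Nat.unpair j).2 ≤ s ∧ D.Psi (Nat.unpair j).1 s x
        (Denumerable.ofNat (List ℕ) (Nat.unpair i).1) (Nat.unpair i).2)
    (fun i j s => (LC.const _).and (D.LC_Psi _ _ _ _))
  obtain ⟨y, hy, hR⟩ := px_spec c
  have h1 := D.value hD hy
  have h2 := RR_zero hR
  have h3 : (∃ μ k, D.Dc c μ k) ↔ ∃ i, ∀ j, ∃ k, P3 i j k c := by
    constructor
    · rintro ⟨μ, k, h⟩
      refine ⟨Nat.pair (Encodable.encode μ) k, fun j => ?_⟩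
      rw [hc]
      rw [Dc_iff] at h
      obtain ⟨s, hs, h4⟩ := h (Nat.unpair j).1 (Nat.unpair j).2
      refine ⟨s, hs, ?_⟩
      rw [Nat.unpair_pair]
      simp only [Denumerable.ofNat_encode]
      exact h4
    · rintro ⟨i, h⟩
      refine ⟨Denumerable.ofNat (List ℕ) (Nat.unpair i).1, (Nat.unpair i).2, ?_⟩
      rw [Dc_iff]
      intro N s
      obtain ⟨s', hs', h4⟩ := (hc i (Nat.pair N s)).1 (h (Nat.pair N s))
      rw [Nat.unpair_pair] at hs' h4
      exact ⟨s', hs', h4⟩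
  rw [← h3, ← h1] at h2
  exact iff_not_self h2

end WF

theorem not_TRedProd : ¬ TRedProd UC Listing Listing := by
  rintro ⟨f0, g0, ⟨F3, G3, -, -, i3, j3, h3⟩, ⟨F2, G2, -, -, i2, j2, h2⟩,
    ⟨F1, G1, -, -, i1, j1, h1⟩⟩
  exact WF.contradiction ⟨F1, G1, F2, G2, F3, G3, i1, j1, i2, j2, i3, j3⟩
    (f0 := f0) (g0 := g0) ⟨h1, h2, h3⟩

theorem TRed_of_WRed {f g : Prob} (h : WRed f g) : TRed f g := by
  obtain ⟨F, G, -, -, h3⟩ := h
  exact ⟨F, G, trivial, trivial, h3⟩

theorem not_WRedProd : ¬ WRedProd UC Listing Listing := by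
  rintro ⟨f0, g0, h1, h2, h3⟩
  exact not_TRedProd ⟨f0, g0, TRed_of_WRed h1, TRed_of_WRed h2, TRed_of_WRed h3⟩

end Pool.Agent.R575.LL
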